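import Pool.Agent.Y502.BP.Main

/-!
# Two-weight bounds for the Bergman projection: a large class of weights

The definitions `IsWeight`, `TwoWeightBounded`, `bergman`, `bergmanPlus` are those of the starting
result `BergmanTwoWeight`, which has one pair of weights. Here `w` is comparable to the Poisson
kernel of the point `1`, and `σ` is comparable to `‖1 - z‖²` times a radial function.
-/

set_option autoImplicit false
open MeasureTheory Set Filter Topology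

namespace Pool.Agent.Results.MP_5b3867_an.RadialFactors

open Pool.Agent.Results.MP_5b3867_an.BergmanTwoWeight

/-- Let `s` be positive and measurable on `[0, 1)` such that `s ‖z‖` is integrable on the disc, let
`g` and `h` be measurable with values in `[c, C]`, `c > 0`, and put
`w z = g z * (1 - ‖z‖ ^ 2) / ‖1 - z‖ ^ 2` and `σ z = h z * ‖1 - z‖ ^ 2 * s ‖z‖`. Then the Bergman
projection is bounded for these weights; the maximal Bergman projection is not if the sum of the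
numbers `(∫ ‖z‖ ^ (2 N) s ‖z‖) ^ 2 / (N + 1)` is infinite. There are such functions `s`. Hence there
are weights for which the Bergman projection is bounded but the maximal one is not. -/
theorem result :
    (∀ (s : ℝ → ℝ) (g h : ℂ → ℝ) (c C : ℝ), Measurable s → (∀ r : ℝ, 0 ≤ r → r < 1 → 0 < s r) →
      IntegrableOn (fun z : ℂ => s ‖z‖) (Metric.ball (0:ℂ) 1) → Measurable g → Measurable h →
      0 < c → (∀ z, c ≤ g z ∧ g z ≤ C) → (∀ z, c ≤ h z ∧ h z ≤ C) →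
      IsWeight (fun z => g z * ((1 - ‖z‖ ^ 2) / ‖1 - z‖ ^ 2)) ∧
      IsWeight (fun z => h z * (‖1 - z‖ ^ 2 * s ‖z‖)) ∧
      TwoWeightBounded bergman (fun z => h z * (‖1 - z‖ ^ 2 * s ‖z‖))
        (fun z => g z * ((1 - ‖z‖ ^ 2) / ‖1 - z‖ ^ 2)) ∧
      (¬ (Summable fun N : ℕ =>
          (∫ z in Metric.ball (0:ℂ) 1, ‖z‖ ^ (2 * N) * s ‖z‖) ^ 2 / ((N:ℝ) + 1)) →
        ¬ TwoWeightBounded bergmanPlus (fun z => h z * (‖1 - z‖ ^ 2 * s ‖z‖))
          (fun z => g z * ((1 - ‖z‖ ^ 2) / ‖1 - z‖ ^ 2)))) ∧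
    (∃ s : ℝ → ℝ, Measurable s ∧ (∀ r : ℝ, 0 ≤ r → r < 1 → 0 < s r) ∧
      IntegrableOn (fun z : ℂ => s ‖z‖) (Metric.ball (0:ℂ) 1) ∧
      ¬ (Summable fun N : ℕ =>
        (∫ z in Metric.ball (0:ℂ) 1, ‖z‖ ^ (2 * N) * s ‖z‖) ^ 2 / ((N:ℝ) + 1))) ∧
    ∃ w σ : ℂ → ℝ, IsWeight w ∧ IsWeight σ ∧
      TwoWeightBounded bergman σ w ∧ ¬ TwoWeightBounded bergmanPlus σ w :=
  ⟨fun _ _ _ _ _ h1 h2 h3 hg hh hc hg1 hh1 =>
      Pool.Agent.Y502.BP.main ⟨h1, h2, h3⟩ hc hg hh hg1 hh1,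
    ⟨Pool.Agent.Y502.BP.s1, Pool.Agent.Y502.BP.s1_rad.meas, Pool.Agent.Y502.BP.s1_rad.pos,
      Pool.Agent.Y502.BP.s1_rad.int, Pool.Agent.Y502.BP.s1_div⟩,
    Pool.Agent.Results.MP_5b3867_an.BergmanTwoWeight.result⟩

end Pool.Agent.Results.MP_5b3867_an.RadialFactors
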